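import Pool.Agent.R603.Minimal
import Pool.Agent.R546.RN.Ryll
import Pool.Agent.R603.OmegaCat

set_option autoImplicit false

/-!
# The topology of pointwise convergence is minimal on endomorphism monoids of ω-categorical structures

Idea of the proof: let `τ` be a Hausdorff semigroup topology on `End(A)` coarser than the topology
of pointwise convergence, let `f_i → f` in `τ` and suppose that `f_i (a) ≠ f (a)` for all `i`. Since
`Aut(A)` is oligomorphic, there are `g_i ∈ Aut(A)` such that, after passing to a finer net, both
`g_i` and `g_i f_i` converge pointwise, to `s` and `u` in `End(A)`. Then `g_i f_i` converges to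
`s f` in `τ`, hence `u = s f`, and `g_i (f_i (a)) = u (a) = s (f (a)) = g_i (f (a))` for some `i`.
-/

namespace Pool.Agent.Results.MP_6e9b54_lc.PointwiseMinimal

open FirstOrder FirstOrder.Language Pool.Agent.R603

/-- The topology of pointwise convergence on `End(A)`, the set of all endomorphisms of `A`: the
topology induced by the product topology on `A ^ A`, where `A` is discrete. -/
@[reducible] def pointwise (L : FirstOrder.Language.{0, 0}) (A : Type) [L.Structure A] :
    TopologicalSpace (A →[L] A) :=
  TopologicalSpace.induced (fun (f : A →[L] A) (x : A) => f x)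
    (@Pi.topologicalSpace A (fun _ => A) (fun _ => ⊥))

/-- `τ` is a semigroup topology on `End(A)`: the composition is jointly continuous. -/
def IsSemigroupTopology (L : FirstOrder.Language.{0, 0}) (A : Type) [L.Structure A]
    (τ : TopologicalSpace (A →[L] A)) : Prop :=
  @Continuous ((A →[L] A) × (A →[L] A)) (A →[L] A) (@instTopologicalSpaceProd _ _ τ τ) τ
    fun p => p.1.comp p.2

/-- The automorphisms as permutations. -/
def auts (L : FirstOrder.Language.{0, 0}) (A : Type) [L.Structure A] :
    Subgroup (Equiv.Perm A) where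
  carrier := {g | ∃ a : A ≃[L] A, ∀ x, a x = g x}
  mul_mem' := by
    rintro g h ⟨a, ha⟩ ⟨b, hb⟩
    exact ⟨a.comp b, fun x => by
      rw [FirstOrder.Language.Equiv.comp_apply, hb, ha]; rfl⟩
  one_mem' := ⟨FirstOrder.Language.Equiv.refl L A, fun x => rfl⟩
  inv_mem' := by
    rintro g ⟨a, ha⟩
    refine ⟨a.symm, fun x => ?_⟩
    apply a.injective
    rw [FirstOrder.Language.Equiv.apply_symm_apply, ha]
    simp

theorem oligSet_auts (L : FirstOrder.Language.{0, 0}) (A : Type) [L.Structure A]
    (h : OligomorphicAut L A) : OligSet (auts L A) := by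
  classical
  intro n
  rcases isEmpty_or_nonempty A with hA | hA
  · exact ⟨∅, Set.finite_empty, fun s => (hA.false (s 0)).elim⟩
  obtain ⟨x0⟩ := hA
  obtain ⟨S, hS⟩ := h n
  refine ⟨(fun t : Fin n → A => (fun k : ℕ => if h : k < n then t ⟨k, h⟩ else x0)) '' (S : Set _),
    S.finite_toSet.image _, fun s => ?_⟩
  obtain ⟨t, ht, g, hg⟩ := hS (fun i => s i)
  refine ⟨_, ⟨t, ht, rfl⟩, g.symm.toEquiv, ⟨g.symm, fun x => rfl⟩, fun k hk => ?_⟩
  simp only [hk, dif_pos]
  have := hg ⟨k, hk⟩
  change g.symm (s k) = _
  rw [← this, FirstOrder.Language.Equiv.symm_apply_apply]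

theorem closed_end (L : FirstOrder.Language.{0, 0}) (A : Type) [L.Structure A] (f : A → A)
    (hf : ∀ F : Finset A, ∃ a : A →[L] A, ∀ x ∈ F, a x = f x) :
    ∃ a : A →[L] A, (fun x => a x) = f := by
  classical
  refine ⟨⟨f, ?_, ?_⟩, rfl⟩
  · intro n φ x
    obtain ⟨a, ha⟩ := hf (insert (Structure.funMap φ x) (Finset.univ.image x))
    rw [← ha _ (Finset.mem_insert_self _ _), FirstOrder.Language.Hom.map_fun]
    congr 1
    funext i
    exact ha _ (Finset.mem_insert_of_mem (Finset.mem_image_of_mem _ (Finset.mem_univ _)))
  · intro n r x hr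
    obtain ⟨a, ha⟩ := hf (Finset.univ.image x)
    have h1 := FirstOrder.Language.Hom.map_rel a r x hr
    have h2 : a ∘ x = f ∘ x := by
      funext i
      exact ha _ (Finset.mem_image_of_mem _ (Finset.mem_univ _))
    rwa [h2] at h1

theorem main (L : FirstOrder.Language.{0, 0}) (A : Type) [L.Structure A] [Countable A]
    (h : OligomorphicAut L A) (τ : TopologicalSpace (A →[L] A)) (hT2 : @T2Space _ τ)
    (hτ : IsSemigroupTopology L A τ) (hle : pointwise L A ≤ τ) : τ = pointwise L A := by
  refine minimal (fun (f : A →[L] A) (x : A) => f x) (fun a b => a.comp b) ?_ ?_ (auts L A)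
    (oligSet_auts L A h) ?_ τ hT2 hτ hle
  · intro a b; rfl
  · intro f hf
    exact closed_end L A f hf
  · rintro g ⟨a, ha⟩
    exact ⟨a.toHom, funext fun x => ha x⟩

/-- Let `A` be a countably infinite structure that is ω-categorical in a countable language or, more
generally, whose automorphism group has finitely many orbits on `A ^ n` for every `n`. Then the
topology of pointwise convergence is minimal among the Hausdorff semigroup topologies on `End(A)`:
every Hausdorff semigroup topology on `End(A)` coarser than the topology of pointwise convergence is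
equal to it. -/
theorem result (L : FirstOrder.Language.{0, 0}) (A : Type) [L.Structure A] [Countable A]
    [Infinite A] (hA : (Countable L.Symbols ∧ OmegaCategorical L A) ∨ OligomorphicAut L A)
    (τ : TopologicalSpace (A →[L] A))
    (hT2 : @T2Space (A →[L] A) τ) (hτ : IsSemigroupTopology L A τ) (hle : pointwise L A ≤ τ) :
    τ = pointwise L A := by
  rcases hA with ⟨hc, hA⟩ | hA
  · exact main L A (Pool.Agent.R546.RN.oligomorphic_of_omegaCategorical L A hA) τ hT2 hτ hle
  · exact main L A hA τ hT2 hτ hle

end Pool.Agent.Results.MP_6e9b54_lc.PointwiseMinimal
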